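import Pool.Agent.AT5.Stmts2
import Pool.Agent.Helper25_AT2.TEA

/-!
# Squad AT5, row TA5: only the part over the conjugates of `(U, f)` contributes
-/

open scoped BigOperators

set_option linter.unusedSectionVars false

noncomputable section

namespace Pool.Agent.PP.T5.H16

open Pool.Agent.Helper51_AWC Pool.Agent.Helper79_WRA Pool.Agent.PP Pool.Agent.PP.KF
open Pool.Agent.PP.K9 Pool.Agent.PP.K9.H97 Pool.Agent.PP.H75 Pool.Agent.PP.T3 Pool.Agent.PP.T2
open Pool.Agent.PP.T2.H25

attribute [local instance] Ideal.Quotient.field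

theorem ta5 : Ta5Stmt := by
  intro ℓ _ F _ hF G _ _ e heI U f hU hUo Q hQ hyp
  classical
  have hh : Hf e U f := ⟨fun _ hx => hUo.ix.inv hx, hUo.ix.mul, hUo.und⟩
  have ho := hUo.ort Q hQ
  obtain ⟨-, -, b3⟩ := H20.brm ℓ F hF G Q (Subgroup.normalizer (Q : Set G)) hQ
    (cent_le_norm Q) le_rfl
  obtain ⟨e', he'⟩ : ∃ e' : Subgroup.normalizer (Q : Set G) → F,
    e' = fun t : Subgroup.normalizer (Q : Set G) => br Q e t := ⟨_, rfl⟩
  obtain ⟨B, hB⟩ : ∃ B : Subgroup.normalizer (Q : Set G) → F,
    B = fun t : Subgroup.normalizer (Q : Set G) => brU U Q f t := ⟨_, rfl⟩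
  obtain ⟨p, hp⟩ : ∃ p, p = QuotientGroup.mk' (Q.subgroupOf (Subgroup.normalizer (Q : Set G))) :=
    ⟨_, rfl⟩
  have hps : Function.Surjective p := by rw [hp]; exact QuotientGroup.mk'_surjective _
  have hbs : ∀ x, x ∉ Subgroup.normalizer (Q : Set G) → br Q e x = 0 := fun x hx =>
    br_out _ fun hx' => hx (cent_le_norm Q hx')
  have heid : IsIdem e' := by rw [he']; exact b3 e heI
  have hBid : IsIdem B := by rw [hB]; exact brU_idem hF hQ hh ho (cent_le_norm Q) le_rfl
  have heB : mulF e' B = B := by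
    rw [he', hB, ← mulF_res _ (brU U Q f) hbs, brU_und hF hQ heI.1 hh]
  rw [← hp, ← he'] at hyp
  unfold YQ
  rw [← hp, ← he', ← hB]
  obtain ⟨hE, hBE⟩ := H46.isIdem_sub heid hBid heB
  have hpe : push p e' = push p (e' - B) + push p B := by rw [← push_add, sub_add_cancel]
  have h1 : IsIdem (push p (e' - B)) := push_isIdem hps hE
  have h2 : IsIdem (push p B) := push_isIdem hps hBid
  have h12 : mulF (push p (e' - B)) (push p B) = 0 := by
    rw [← push_mulF, H46.mulF_comm hE.1, hBE, push_zero]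
  rw [hpe, H9.YY_add hF H94.nch H20.nls H20.brm H20.eig H20.ibf ⊤ h1 h2 h12]
  have hz : YY ℓ ⊤ (push p (e' - B)) = 0 := by
    refine H9.addStmt ℓ F hF _ ⊤ inferInstance _ h1 fun f₁ hf₁ hEf => ?_
    have hef : mulF (push p e') f₁ = f₁ := by
      have h3 : mulF (push p e') (push p (e' - B)) = push p (e' - B) := by
        rw [← push_mulF]
        congr 1
        have h4 : mulF e' e' = mulF e' (e' - B) + mulF e' B := by
          rw [← H46.mulF_add, sub_add_cancel]
        rw [heid.2, heB] at h4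
        exact (sub_eq_of_eq_add h4).symm
      rw [← hEf, ← mulF_assoc, h3]
    refine hyp f₁ hf₁ hef fun g hb => ?_
    have hEs : ∀ x, x ∉ Subgroup.normalizer (Q : Set G) → br Q (cj g f) x = 0 := fun x hx =>
      br_out _ fun hx' => hx (cent_le_norm Q hx')
    have k1 : mulF e' (fun t : Subgroup.normalizer (Q : Set G) => br Q (cj g f) t) =
        fun t : Subgroup.normalizer (Q : Set G) => br Q (cj g f) t := by
      rw [he', ← mulF_res _ (br Q (cj g f)) hbs, e_und hF hQ heI.1 hh hb]
    have k2 : mulF (fun t : Subgroup.normalizer (Q : Set G) => br Q (cj g f) t) B =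
        fun t : Subgroup.normalizer (Q : Set G) => br Q (cj g f) t := by
      rw [hB, ← mulF_res _ (brU U Q f) hEs]
      have k3 := en_brU hF hQ hh ho g
      rw [en_of hb] at k3
      rw [k3]
    have k4 : mulF (fun t : Subgroup.normalizer (Q : Set G) => br Q (cj g f) t) (e' - B) = 0 := by
      have k5 : mulF (fun t : Subgroup.normalizer (Q : Set G) => br Q (cj g f) t) e' =
          mulF (fun t : Subgroup.normalizer (Q : Set G) => br Q (cj g f) t) (e' - B) +
          mulF (fun t : Subgroup.normalizer (Q : Set G) => br Q (cj g f) t) B := by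
        rw [← H46.mulF_add, sub_add_cancel]
      rw [← H46.mulF_comm heid.1, k1, k2] at k5
      exact left_eq_add.1 (by rw [add_comm] at k5; exact k5)
    rw [← hEf, ← mulF_assoc, ← push_mulF, k4, push_zero, zero_mulF]
  rw [hz, zero_add]

end Pool.Agent.PP.T5.H16
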